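import Pool.Agent.helper29.NS.Spec1

/-!
# Project ns (MP_b9b054_an): module BK

One bounded continuous function separates all curves (Baire category).
-/

namespace NS

open MeasureTheory Filter Topology Set

theorem BK (hBO : BO_stmt) (hBD : BD_stmt) (hBV : BV_stmt) (hBF : BF_stmt) : BK_stmt := by
  intro Y _ _ C hC hfin
  rcases isEmpty_or_nonempty Y with hY | hY
  · exact ⟨0, fun n m γ hγ => (hY.false (γ 0)).elim⟩
  set u : ℕ → Y := TopologicalSpace.denseSeq Y with hu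
  have hud : DenseRange u := TopologicalSpace.denseRange_denseSeq Y
  -- the residual condition for the constants
  have h1 : ∀ᶠ F in residual (BoundedContinuousFunction Y ℝ),
      ∀ y ∈ {y : Y | ∃ n, (fun _ : ℝ => y) ∈ C n}, ∀ z ∈ {y : Y | ∃ n, (fun _ : ℝ => y) ∈ C n},
        y ≠ z → F y ≠ F z := by
    rw [eventually_countable_ball hfin.countable]
    intro y _
    rw [eventually_countable_ball hfin.countable]
    intro z _
    by_cases hyz : y = z
    · exact Eventually.of_forall fun F h => (h hyz).elim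
    · obtain ⟨ho, hd⟩ := hBF Y y z hyz
      filter_upwards [residual_of_dense_open ho hd] with F hF _
      exact hF
  -- the residual conditions for the windows
  have h2 : ∀ᶠ F in residual (BoundedContinuousFunction Y ℝ),
      ∀ k : ℕ × ℕ × ℚ × ℚ × ℚ × ℚ × ℕ × ℕ,
        (k.2.2.1 : ℝ) < k.2.2.2.1 → (0 : ℝ) < k.2.2.2.2.1 → (0 : ℝ) < k.2.2.2.2.2.1 →
        ∀ π ∈ WP (C k.1) (C k.2.1) k.2.2.1 k.2.2.2.1 (u k.2.2.2.2.2.2.1) (u k.2.2.2.2.2.2.2)
          k.2.2.2.2.1 k.2.2.2.2.2.1, ∃ t, F (π.1 t) ≠ F (π.2 t) := by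
    rw [eventually_countable_forall]
    rintro ⟨n, m, α, β, r, η, i, j⟩
    by_cases hk : (α : ℝ) < β ∧ (0 : ℝ) < r ∧ (0 : ℝ) < η
    · obtain ⟨hα, hr, hη⟩ := hk
      filter_upwards [residual_of_dense_open
        (hBO Y (C n) (C m) (hC n) (hC m) α β (u i) (u j) r η)
        (hBD Y (C n) (C m) (hC n) (hC m) α β (u i) (u j) r η hα hr hη)] with F hF _ _ _
      exact hF
    · exact Eventually.of_forall fun F hα hr hη => (hk ⟨hα, hr, hη⟩).elim
  obtain ⟨F, hF1, hF2⟩ := (dense_of_mem_residual (h1.and h2)).nonempty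
  refine ⟨F, fun n m γ hγ γ' hγ' hFF => ?_⟩
  by_contra hne
  by_cases hcon : (∀ t, γ t = γ 0) ∧ (∀ t, γ' t = γ' 0)
  · obtain ⟨hc, hc'⟩ := hcon
    have e1 : γ = fun _ => γ 0 := funext hc
    have e2 : γ' = fun _ => γ' 0 := funext hc'
    have hy : γ 0 ∈ {y : Y | ∃ n, (fun _ : ℝ => y) ∈ C n} := ⟨n, by rw [← e1]; exact hγ⟩
    have hz : γ' 0 ∈ {y : Y | ∃ n, (fun _ : ℝ => y) ∈ C n} := ⟨m, by rw [← e2]; exact hγ'⟩
    have hyz : γ 0 ≠ γ' 0 := by
      intro h
      apply hne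
      rw [e1, e2, h]
    exact hF1 _ hy _ hz hyz (hFF 0)
  · obtain ⟨α, β, r, η, i, j, hα, hr, hη, h⟩ := hBV Y u hud (C n) (C m) γ γ' hγ hγ'
      ((hC n).1 γ hγ) ((hC m).1 γ' hγ') hne hcon
    rcases h with h | h
    · obtain ⟨t, ht⟩ := hF2 (n, m, α, β, r, η, i, j) hα hr hη _ h
      exact ht (hFF t)
    · obtain ⟨t, ht⟩ := hF2 (m, n, α, β, r, η, i, j) hα hr hη _ h
      exact ht (hFF t).symm

end NS
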