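import Pool.Agent.helper29.NS.SpecE

/-!
# OD: a bounded log-convex function is constant
-/

set_option autoImplicit false

namespace NS

open MeasureTheory Filter Topology Set

/-- the hypothesis -/
def OD_P (w : ℝ → ℝ) : Prop := ContDiff ℝ 2 w ∧
  ∀ α β, α < β → (∀ t ∈ Ioo α β, w t ≠ 0) →
    ∃ t ∈ Ioo α β, deriv w t ^ 2 ≤ w t * deriv (deriv w) t

theorem OD_d {w : ℝ → ℝ} (h : ContDiff ℝ 2 w) : Differentiable ℝ w ∧ Differentiable ℝ (deriv w) ∧
    Continuous (deriv (deriv w)) := by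
  have h1 : ContDiff ℝ 1 (deriv w) := by
    have h2 : ContDiff ℝ (1 + 1) w := by
      have e : (1 + 1 : WithTop ℕ∞) = 2 := by norm_num
      rw [e]
      exact h
    exact (contDiff_succ_iff_deriv.1 h2).2.2
  have h3 : ContDiff ℝ 0 (deriv (deriv w)) := by
    have h2 : ContDiff ℝ (0 + 1) (deriv w) := by
      rw [zero_add]
      exact h1
    exact (contDiff_succ_iff_deriv.1 h2).2.2
  exact ⟨h.differentiable (by norm_num), h1.differentiable (by norm_num), h3.continuous⟩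

theorem OD_all {w : ℝ → ℝ} (h : OD_P w) {α β : ℝ} (hw : ∀ t ∈ Ioo α β, w t ≠ 0) :
    ∀ t ∈ Ioo α β, deriv w t ^ 2 ≤ w t * deriv (deriv w) t := by
  intro t ht
  by_contra hc
  obtain ⟨d1, d2, d3⟩ := OD_d h.1
  have ho : IsOpen ({s : ℝ | w s * deriv (deriv w) s < deriv w s ^ 2} ∩ Ioo α β) :=
    (isOpen_lt (d1.continuous.mul d3) (d2.continuous.pow 2)).inter isOpen_Ioo
  obtain ⟨δ, hδ, hb⟩ := Metric.isOpen_iff.1 ho t ⟨not_le.1 hc, ht⟩
  rw [Real.ball_eq_Ioo] at hb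
  obtain ⟨s, hs, hs'⟩ := h.2 (t - δ) (t + δ) (by linarith) fun s hs => hw s (hb hs).2
  exact absurd (hb hs).1 (not_lt.2 hs')

/-- As long as `w` is positive. -/
theorem OD_mono {w : ℝ → ℝ} (h : OD_P w) {t₀ t₁ : ℝ} (h01 : t₀ < t₁)
    (hw : ∀ t ∈ Icc t₀ t₁, 0 < w t) :
    w t₀ * Real.exp (deriv w t₀ / w t₀ * (t₁ - t₀)) ≤ w t₁ := by
  obtain ⟨d1, d2, d3⟩ := OD_d h.1
  have hineq : ∀ t ∈ Ioo t₀ t₁, deriv w t ^ 2 ≤ w t * deriv (deriv w) t :=
    OD_all h fun t ht => (hw t (Ioo_subset_Icc_self ht)).ne'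
  -- `v = w' / w` is monotone
  have hv : MonotoneOn (fun t => deriv w t / w t) (Icc t₀ t₁) := by
    refine monotoneOn_of_deriv_nonneg (convex_Icc t₀ t₁) ?_ ?_ ?_
    · exact d2.continuous.continuousOn.div d1.continuous.continuousOn fun t ht => (hw t ht).ne'
    · rw [interior_Icc]
      intro t ht
      exact ((d2 t).div (d1 t) (hw t (Ioo_subset_Icc_self ht)).ne').differentiableWithinAt
    · rw [interior_Icc]
      intro t ht
      have hwt := hw t (Ioo_subset_Icc_self ht)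
      rw [deriv_fun_div (d2 t) (d1 t) hwt.ne']
      refine div_nonneg ?_ (by positivity)
      have := hineq t ht
      nlinarith
  obtain ⟨c, hc⟩ : ∃ c, c = deriv w t₀ / w t₀ := ⟨_, rfl⟩
  have hf : MonotoneOn (fun t => w t * Real.exp (-(c * (t - t₀)))) (Icc t₀ t₁) := by
    have hder : ∀ t, HasDerivAt (fun t => w t * Real.exp (-(c * (t - t₀))))
        (deriv w t * Real.exp (-(c * (t - t₀))) +
          w t * (Real.exp (-(c * (t - t₀))) * (-(c * 1)))) t := by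
      intro t
      have e1 : HasDerivAt (fun t => -(c * (t - t₀))) (-(c * 1)) t :=
        (((hasDerivAt_id t).sub_const t₀).const_mul c).neg
      exact (d1 t).hasDerivAt.mul e1.exp
    refine monotoneOn_of_deriv_nonneg (convex_Icc t₀ t₁) ?_ ?_ ?_
    · exact fun t _ => (hder t).continuousAt.continuousWithinAt
    · exact fun t _ => (hder t).differentiableAt.differentiableWithinAt
    · rw [interior_Icc]
      intro t ht
      have hwt := hw t (Ioo_subset_Icc_self ht)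
      rw [(hder t).deriv]
      have e2 : c ≤ deriv w t / w t := by
        rw [hc]
        exact hv (left_mem_Icc.2 h01.le) (Ioo_subset_Icc_self ht) ht.1.le
      rw [le_div_iff₀ hwt] at e2
      have e3 : deriv w t * Real.exp (-(c * (t - t₀))) +
          w t * (Real.exp (-(c * (t - t₀))) * (-(c * 1))) =
          (deriv w t - c * w t) * Real.exp (-(c * (t - t₀))) := by ring
      rw [e3]
      exact mul_nonneg (by linarith) (Real.exp_pos _).le
  have h2 := hf (left_mem_Icc.2 h01.le) (right_mem_Icc.2 h01.le) h01.le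
  have h3 : w t₀ ≤ w t₁ * Real.exp (-(c * (t₁ - t₀))) := by
    have e : w t₀ * Real.exp (-(c * (t₀ - t₀))) = w t₀ := by
      rw [sub_self, mul_zero, neg_zero, Real.exp_zero, mul_one]
    rw [← e]
    exact h2
  rw [← hc]
  calc w t₀ * Real.exp (c * (t₁ - t₀)) ≤
      w t₁ * Real.exp (-(c * (t₁ - t₀))) * Real.exp (c * (t₁ - t₀)) :=
        mul_le_mul_of_nonneg_right h3 (Real.exp_pos _).le
    _ = w t₁ := by
        rw [mul_assoc, ← Real.exp_add, neg_add_cancel, Real.exp_zero, mul_one]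

theorem OD_right {w : ℝ → ℝ} (h : OD_P w) {t₀ : ℝ} (h0 : 0 < w t₀) :
    ∀ t, t₀ ≤ t → w t₀ * Real.exp (deriv w t₀ / w t₀ * (t - t₀)) ≤ w t := by
  obtain ⟨d1, d2, d3⟩ := OD_d h.1
  have hpos : ∀ t, t₀ ≤ t → 0 < w t := by
    by_contra hc
    push Not at hc
    obtain ⟨t₁, ht₁, hw₁⟩ := hc
    have hcl : IsClosed {t | t₀ ≤ t ∧ w t ≤ 0} :=
      (isClosed_le continuous_const continuous_id).inter
        (isClosed_le d1.continuous continuous_const)
    have hne : {t | t₀ ≤ t ∧ w t ≤ 0}.Nonempty := ⟨t₁, ht₁, hw₁⟩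
    have hbd : BddBelow {t | t₀ ≤ t ∧ w t ≤ 0} := ⟨t₀, fun t ht => ht.1⟩
    obtain ⟨τ, hτ⟩ : ∃ τ, τ = sInf {t | t₀ ≤ t ∧ w t ≤ 0} := ⟨_, rfl⟩
    have hτm : τ ∈ {t | t₀ ≤ t ∧ w t ≤ 0} := by
      rw [hτ]
      exact hcl.csInf_mem hne hbd
    have hτ0 : t₀ < τ := by
      rcases hτm.1.lt_or_eq with h1 | h1
      · exact h1
      · rw [h1] at h0
        exact absurd hτm.2 (not_le.2 h0)
    have hlow : ∀ t, t₀ ≤ t → t < τ → 0 < w t := by
      intro t ht1 ht2
      by_contra hc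
      have : τ ≤ t := by
        rw [hτ]
        exact csInf_le hbd ⟨ht1, not_lt.1 hc⟩
      linarith
    have hset : IsClosed {t | w t₀ * Real.exp (deriv w t₀ / w t₀ * (t - t₀)) ≤ w t} := by
      refine isClosed_le ?_ d1.continuous
      fun_prop
    have hsub : Ioo t₀ τ ⊆ {t | w t₀ * Real.exp (deriv w t₀ / w t₀ * (t - t₀)) ≤ w t} := by
      intro t ht
      exact OD_mono h ht.1 fun s hs => hlow s hs.1 (lt_of_le_of_lt hs.2 ht.2)
    have h2 := closure_minimal hsub hset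
    rw [closure_Ioo hτ0.ne] at h2
    have h3 : w t₀ * Real.exp (deriv w t₀ / w t₀ * (τ - t₀)) ≤ w τ := h2 (right_mem_Icc.2 hτ0.le)
    have h4 : 0 < w t₀ * Real.exp (deriv w t₀ / w t₀ * (τ - t₀)) := by positivity
    have h5 := hτm.2
    linarith
  intro t ht
  rcases ht.lt_or_eq with h1 | h1
  · exact OD_mono h h1 fun s hs => hpos s hs.1
  · rw [← h1, sub_self, mul_zero, Real.exp_zero, mul_one]

theorem OD_dneg (w : ℝ → ℝ) (t : ℝ) : deriv (fun s => w (-s)) t = -deriv w (-t) :=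
  deriv_comp_neg w t

theorem OD_refl {w : ℝ → ℝ} (h : OD_P w) : OD_P (fun s => w (-s)) := by
  refine ⟨h.1.comp contDiff_neg, fun α β hαβ hw => ?_⟩
  obtain ⟨t, ht, h1⟩ := h.2 (-β) (-α) (by linarith) fun t ht => by
    have h2 : w (-(-t)) ≠ 0 := hw (-t) ⟨by linarith [ht.2], by linarith [ht.1]⟩
    rwa [neg_neg] at h2
  refine ⟨-t, ⟨by linarith [ht.2], by linarith [ht.1]⟩, ?_⟩
  have e1 : deriv (fun s => w (-s)) = fun t => -deriv w (-t) := funext fun t => OD_dneg w t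
  have e2 : deriv (deriv fun s => w (-s)) (-t) = deriv (deriv w) t := by
    rw [e1, deriv.fun_neg, OD_dneg (deriv w), neg_neg, neg_neg]
  rw [e2, e1]
  simp only [neg_neg, neg_sq]
  exact h1

theorem OD_neg {w : ℝ → ℝ} (h : OD_P w) : OD_P (fun s => -w s) := by
  refine ⟨h.1.neg, fun α β hαβ hw => ?_⟩
  obtain ⟨t, ht, h1⟩ := h.2 α β hαβ fun t ht => by
    have h2 : -w t ≠ 0 := hw t ht
    exact fun e => h2 (by rw [e, neg_zero])
  refine ⟨t, ht, ?_⟩
  have e1 : deriv (fun s => -w s) = fun t => -deriv w t := funext fun t => deriv.fun_neg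
  have e2 : deriv (deriv fun s => -w s) t = -deriv (deriv w) t := by
    rw [e1, deriv.fun_neg]
  rw [e2, e1]
  simp only [neg_sq, neg_mul_neg]
  exact h1

theorem OD_left {w : ℝ → ℝ} (h : OD_P w) {t₀ : ℝ} (h0 : 0 < w t₀) :
    ∀ t, t ≤ t₀ → w t₀ * Real.exp (deriv w t₀ / w t₀ * (t - t₀)) ≤ w t := by
  intro t ht
  have h1 := OD_right (OD_refl h) (t₀ := -t₀) (by
    show 0 < w (-(-t₀))
    rw [neg_neg]
    exact h0) (-t) (by linarith)
  simp only [OD_dneg, neg_neg] at h1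
  have e : -deriv w t₀ / w t₀ * (-t - -t₀) = deriv w t₀ / w t₀ * (t - t₀) := by ring
  rw [e] at h1
  exact h1

theorem OD_pos {w : ℝ → ℝ} (h : OD_P w) {K : ℝ} (hK : ∀ t, |w t| ≤ K) {t₁ : ℝ} (h0 : 0 < w t₁) :
    ∀ t, w t = w 0 := by
  have hall : ∀ t₀, 0 < w t₀ → ∀ t, w t₀ * Real.exp (deriv w t₀ / w t₀ * (t - t₀)) ≤ w t := by
    intro t₀ h0 t
    rcases le_total t₀ t with h1 | h1
    · exact OD_right h h0 t h1
    · exact OD_left h h0 t h1
  have hpos : ∀ t, 0 < w t := by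
    intro t
    refine lt_of_lt_of_le ?_ (hall t₁ h0 t)
    positivity
  have hder : ∀ t₀, deriv w t₀ = 0 := by
    intro t₀
    by_contra hc
    have hw0 := hpos t₀
    have hK0 : 0 < K := lt_of_lt_of_le (abs_pos.2 hw0.ne') (hK t₀)
    obtain ⟨c, hcd⟩ : ∃ c, c = deriv w t₀ / w t₀ := ⟨_, rfl⟩
    have hc0 : c ≠ 0 := by
      rw [hcd]
      exact div_ne_zero hc hw0.ne'
    have h1 := hall t₀ hw0 (t₀ + K / w t₀ / c)
    rw [← hcd] at h1
    have e1 : c * (t₀ + K / w t₀ / c - t₀) = K / w t₀ := by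
      rw [add_sub_cancel_left, mul_div_cancel₀ _ hc0]
    rw [e1] at h1
    have h2 := Real.add_one_le_exp (K / w t₀)
    have h3 : w t₀ * (K / w t₀ + 1) ≤ w t₀ * Real.exp (K / w t₀) :=
      mul_le_mul_of_nonneg_left h2 hw0.le
    have e2 : w t₀ * (K / w t₀ + 1) = K + w t₀ := by
      field_simp
    have h4 := (abs_le.1 (hK (t₀ + K / w t₀ / c))).2
    linarith
  exact fun t => is_const_of_deriv_eq_zero (OD_d h.1).1 hder t 0

theorem OD : OD_stmt := by
  rintro w hw ⟨K, hK⟩ ⟨t₁, ht₁⟩ h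
  have hP : OD_P w := ⟨hw, h⟩
  rcases lt_or_gt_of_ne ht₁ with h1 | h1
  · intro t
    have h2 := OD_pos (OD_neg hP) (K := K) (fun t => by
      show |-w t| ≤ K
      rw [abs_neg]
      exact hK t) (t₁ := t₁) (by
        show 0 < -w t₁
        linarith) t
    exact neg_injective h2
  · exact OD_pos hP hK h1

end NS
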