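import Pool.Agent.helper29.NS.SpecC

/-!
# Project ns, part C, module S3: the punctured disc cannot be swept
-/

set_option autoImplicit false

namespace NS

open MeasureTheory Filter Topology Set

theorem S3_rot (q : ℝ × ℝ) : rot (-Real.pi) q = (-q.1, -q.2) := by
  unfold rot
  rw [Real.cos_neg, Real.sin_neg, Real.cos_pi, Real.sin_pi]
  simp

theorem S3_ring (R r : ℝ) (h0 : 0 < r) (h1 : r < R) : ((r, 0) : ℝ × ℝ) ∈ Ring 0 R := by
  refine ⟨?_, ?_⟩
  · show (0 : ℝ) ^ 2 < r ^ 2 + 0 ^ 2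
    nlinarith
  · show r ^ 2 + 0 ^ 2 < R ^ 2
    nlinarith

theorem S3_clos (R : ℝ) (hR : 0 < R) (g : ℝ → ℝ) (hg : Continuous g)
    (h : ∀ r, 0 < r → r < R → g r = 0) : g 0 = 0 := by
  have h1 : IsClosed {r : ℝ | g r = 0} := isClosed_eq hg continuous_const
  have h2 : Ioo (0 : ℝ) R ⊆ {r : ℝ | g r = 0} := fun r hr => h r hr.1 hr.2
  have h3 := closure_minimal h2 h1
  rw [closure_Ioo hR.ne] at h3
  exact h3 ⟨le_rfl, hR.le⟩

theorem S3_deriv (b : ℝ × ℝ × ℝ → ℝ) (hb : ContDiff ℝ 3 b) (t r : ℝ) :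
    HasDerivAt (fun s : ℝ => b (t, (s, 0))) (dx b (t, (r, 0))) r := by
  have h1 : HasDerivAt (fun s : ℝ => ((t, (s, 0)) : ℝ × ℝ × ℝ)) (0, (1, 0)) r :=
    (hasDerivAt_const r t).prodMk ((hasDerivAt_id r).prodMk (hasDerivAt_const r (0 : ℝ)))
  have h2 : HasFDerivAt b (fderiv ℝ b (t, (r, 0))) (t, (r, 0)) :=
    ((hb.differentiable (by norm_num)) _).hasFDerivAt
  exact h2.comp_hasDerivAt r h1

theorem S3 (hEE : EE_stmt) (hEV : EV_stmt) (hRR : RR_stmt) (hKF : KF_stmt) (hRX : RX_stmt) :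
    S3_stmt := by
  intro Ω ν R t1 G a1 b1 a2 b2 a b m n hC hS
  obtain ⟨hRing, hmn, hRI⟩ := hS
  have hR := hC.oc.pos
  have hcb : ContDiff ℝ 3 b := hC.dmm.cb
  have hca : ContDiff ℝ 3 a := hC.dmm.ca
  have hbc : Continuous b := hcb.continuous
  have hac : Continuous a := hca.continuous
  obtain ⟨hV2, hVeq, hVr⟩ := hEV Ω ν R t1 G a1 b1 a2 b2 a b m n hC 0 le_rfl hR ⟨hRing, hmn, hRI⟩
  obtain ⟨K, hK⟩ := hC.bd
  have hK0 : 0 ≤ K := (abs_nonneg _).trans (hK (0, (0, 0))).1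
  have hbK : ∀ z, |b z| ≤ 2 * K := by
    intro z
    obtain ⟨_, h1, _, h2, _⟩ := hK z
    rw [hC.hb]
    show |b1 z - b2 z| ≤ 2 * K
    exact (abs_sub _ _).trans (by linarith)
  have hdx : ∀ z, |dx b z| ≤ K := fun z => (hK z).2.2.2.2.2.2.2.2
  -- boundary values
  have hfr : ∀ q ∈ Circ R, ∀ t, a (t, q) = 0 ∧ b (t, q) = 0 := by
    intro q hq t
    have h1 := ((hKF Ω R hC.op hC.oc).2 q hq).1
    have h2 := hC.dmm.bc t q h1
    exact ⟨h2.1, h2.2.1⟩
  have hRR0 : ((R, 0) : ℝ × ℝ) ∈ Circ R := by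
    show R ^ 2 + 0 ^ 2 = R ^ 2
    ring
  -- the value at the centre
  have hb0 : ∀ t < t1, b (t, (0, 0)) = 0 := by
    intro t ht
    have h1 : b (t, (0, 0)) + b (t, (-0, 0)) = 0 := by
      refine S3_clos R hR (fun r => b (t, (r, 0)) + b (t, (-r, 0))) ?_ ?_
      · exact (hbc.comp (by fun_prop)).add (hbc.comp (by fun_prop))
      · intro r h0 h1
        have h2 := (hRI Real.pi t ht (r, 0) (S3_ring R r h0 h1)).2
        unfold rfb at h2
        simp only at h2
        rw [S3_rot, Real.sin_pi, Real.cos_pi, neg_zero] at h2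
        simp only at h2
        show b (t, (r, 0)) + b (t, (-r, 0)) = 0
        linarith
    rw [neg_zero] at h1
    linarith
  have hbr : ∀ t < t1, ∀ ρ, 0 < ρ → |b (t, (ρ, 0))| ≤ K * ρ := by
    intro t ht ρ hρ
    have h1 := Convex.norm_image_sub_le_of_norm_hasDerivWithin_le
      (f := fun s : ℝ => b (t, (s, 0))) (f' := fun s => dx b (t, (s, 0))) (s := univ) (C := K)
      (x := 0) (y := ρ) (fun x _ => (S3_deriv b hcb t x).hasDerivWithinAt)
      (fun x _ => hdx _) convex_univ (mem_univ _) (mem_univ _)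
    rw [hb0 t ht, sub_zero, sub_zero, Real.norm_eq_abs, Real.norm_eq_abs, abs_of_pos hρ] at h1
    exact h1
  -- energy estimate
  have hE : ∀ ρ, 0 < ρ → ρ < R → ∀ t < t1,
      ∫ r in ρ..R, b (t, (r, 0)) ^ 2 * r ≤ R ^ 2 * ρ * (K ^ 2 * ρ) := by
    intro ρ hρ hρR
    refine hEE ν ρ R t1 (K ^ 2 * ρ) (2 * K) (fun z : ℝ × ℝ => b (z.1, (z.2, 0))) hC.nu hρ hρR
      (by positivity) hV2 (fun z => hbK _) ?_ ?_ ?_
    · intro t ht r hr hrR
      exact hVeq t ht r (hρ.trans hr) hrR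
    · intro t _
      exact (hfr _ hRR0 t).2
    · intro t ht
      rw [hVr]
      show -(b (t, (ρ, 0)) * dx b (t, (ρ, 0))) ≤ K ^ 2 * ρ
      have h1 := hbr t ht ρ hρ
      have h2 := hdx (t, (ρ, 0))
      have h3 : |b (t, (ρ, 0)) * dx b (t, (ρ, 0))| ≤ (K * ρ) * K := by
        rw [abs_mul]
        exact mul_le_mul h1 h2 (abs_nonneg _) (by positivity)
      have h4 := neg_abs_le (b (t, (ρ, 0)) * dx b (t, (ρ, 0)))
      nlinarith
  -- the difference vanishes on the ray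
  have hbz : ∀ t < t1, ∀ r, 0 < r → r < R → b (t, (r, 0)) = 0 := by
    intro t ht r0 hr0 hr0R
    by_contra hne
    set f : ℝ → ℝ := fun r => b (t, (r, 0)) ^ 2 * r with hf
    have hfc : Continuous f := by
      have h1 : Continuous (fun r : ℝ => b (t, (r, 0))) := hbc.comp (by fun_prop)
      exact (h1.pow 2).mul continuous_id
    have hI : 0 < ∫ r in (r0 / 2)..R, f r := by
      refine intervalIntegral.integral_pos (by linarith) hfc.continuousOn ?_ ⟨r0, ?_, ?_⟩
      · intro x hx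
        have : 0 ≤ x := by linarith [hx.1]
        simp only [hf]
        positivity
      · exact ⟨by linarith, hr0R.le⟩
      · simp only [hf]
        positivity
    set I := ∫ r in (r0 / 2)..R, f r with hId
    set ρ := min (r0 / 4) (I / (R ^ 3 * K ^ 2 + 1)) with hρ
    have hD : 0 < R ^ 3 * K ^ 2 + 1 := by positivity
    have hρ0 : 0 < ρ := lt_min (by linarith) (div_pos hI hD)
    have hρ1 : ρ ≤ r0 / 4 := min_le_left _ _
    have hρ2 : (R ^ 3 * K ^ 2 + 1) * ρ ≤ I := by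
      have : ρ ≤ I / (R ^ 3 * K ^ 2 + 1) := min_le_right _ _
      rw [le_div_iff₀ hD] at this
      linarith
    have hρR : ρ < R := by linarith
    have h1 := hE ρ hρ0 hρR t ht
    have h2 : ∫ r in ρ..R, f r = (∫ r in ρ..(r0 / 2), f r) + I :=
      (intervalIntegral.integral_add_adjacent_intervals (hfc.intervalIntegrable _ _)
        (hfc.intervalIntegrable _ _)).symm
    have h3 : 0 ≤ ∫ r in ρ..(r0 / 2), f r := by
      refine intervalIntegral.integral_nonneg (by linarith) ?_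
      intro x hx
      have : 0 ≤ x := by linarith [hx.1]
      simp only [hf]
      positivity
    have h4 : I ≤ R ^ 2 * ρ * (K ^ 2 * ρ) := by
      have : ∫ r in ρ..R, f r ≤ R ^ 2 * ρ * (K ^ 2 * ρ) := h1
      linarith
    have h5 : R ^ 2 * ρ * (K ^ 2 * ρ) ≤ R ^ 3 * K ^ 2 * ρ := by
      have : 0 ≤ R ^ 2 * K ^ 2 * ρ * (R - ρ) := by
        have : 0 ≤ R - ρ := by linarith
        positivity
      nlinarith
    nlinarith
  -- the difference vanishes in the punctured disc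
  have hz : ∀ t < t1, ∀ q ∈ Ring 0 R, a (t, q) = 0 ∧ b (t, q) = 0 := by
    intro t ht q hq
    obtain ⟨θ, hθ⟩ := (hRX 0 q).2.2.2
    set s := Real.sqrt (q.1 ^ 2 + q.2 ^ 2) with hs
    have hq1 : 0 < q.1 ^ 2 + q.2 ^ 2 := by
      have := hq.1
      simpa using this
    have hs0 : 0 < s := Real.sqrt_pos.2 hq1
    have hsR : s < R := by
      rw [hs]
      exact (Real.sqrt_lt' hR).2 hq.2
    have h1 := hRR R 0 t a b le_rfl hR (hca.of_le (by norm_num)) (hcb.of_le (by norm_num))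
      (fun α t' ht' q hq => by
        rw [mem_singleton_iff] at ht'
        subst ht'
        exact hRI α t' ht q hq)
      (fun q hq => hC.dmm.da t q (hRing hq)) (fun q hq => hfr q hq t)
    have h2 := ((h1 q hq).2.2 s hs0 hsR).1
    have h3 := hbz t ht s hs0 hsR
    have h4 : rot (-θ) q = (s, 0) := by
      have := (hRX θ (s, 0)).2.2.1
      rw [← hθ] at this
      exact this
    obtain ⟨h5, h6⟩ := hRI θ t ht q hq
    unfold rfa at h5
    unfold rfb at h6
    simp only at h5 h6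
    rw [h4, h2, h3] at h5 h6
    exact ⟨by rw [← h5]; ring, by rw [← h6]; ring⟩
  obtain ⟨q, hq, hne⟩ := hC.nz (t1 - 1) (by linarith)
  have ht : t1 - 1 < t1 := by linarith
  have hqR := hC.oc.ins q hq
  by_cases h0 : 0 < q.1 ^ 2 + q.2 ^ 2
  · exact hne (hz _ ht q ⟨by simpa using h0, hqR⟩)
  · have h1 : q.1 = 0 := by nlinarith [sq_nonneg q.1, sq_nonneg q.2]
    have h2 : q.2 = 0 := by nlinarith [sq_nonneg q.1, sq_nonneg q.2]
    have h3 : q = (0, 0) := Prod.ext h1 h2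
    apply hne
    rw [h3]
    constructor
    · exact S3_clos R hR (fun r => a (t1 - 1, (r, 0))) (hac.comp (by fun_prop))
        fun r h0 h1 => (hz _ ht (r, 0) (S3_ring R r h0 h1)).1
    · exact S3_clos R hR (fun r => b (t1 - 1, (r, 0))) (hbc.comp (by fun_prop))
        fun r h0 h1 => (hz _ ht (r, 0) (S3_ring R r h0 h1)).2

end NS
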